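import Mathlib

set_option autoImplicit false

namespace Pool.Agent.Results.MP_43980c_co.NotGroup

/-- `[x,y] > 1`: at least two blocks are incident with both points `x` and `y`. -/
def MultiJoined {P B : Type} (I : P → B → Prop) (x y : P) : Prop :=
  ∃ C D : B, C ≠ D ∧ I x C ∧ I y C ∧ I x D ∧ I y D

/-- `C ∼ₐ D`: for every point `x` on one of the blocks there is a point `y` on the other with
`[x,y] > 1`. -/
def NearBlocks {P B : Type} (I : P → B → Prop) (C D : B) : Prop :=
  (∀ x, I x C → ∃ y, I y D ∧ MultiJoined I x y) ∧ (∀ x, I x D → ∃ y, I y C ∧ MultiJoined I x y)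

/-- Ordinary affine planes. -/
structure IsAffinePlane {P B : Type} (I : P → B → Prop) : Prop where
  join : ∀ x y, x ≠ y → ∃! C, I x C ∧ I y C
  parallel : ∀ x C, ¬ I x C → ∃! D, I x D ∧ ∀ y, ¬ (I y C ∧ I y D)
  triangle : ∃ x y z : P, x ≠ y ∧ ¬ ∃ C, I x C ∧ I y C ∧ I z C
  two : ∀ C, ∃ x y, x ≠ y ∧ I x C ∧ I y C

/-- Epimorphisms of incidence structures: surjective on points, on blocks and on flags. -/
structure IsEpimorphism {P B P' B' : Type} (I : P → B → Prop) (I' : P' → B' → Prop)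
    (f : P → P') (g : B → B') : Prop where
  surjPoints : Function.Surjective f
  surjBlocks : Function.Surjective g
  map : ∀ x C, I x C → I' (f x) (g C)
  flags : ∀ x' C', I' x' C' → ∃ x C, f x = x' ∧ g C = C' ∧ I x C

/-- Affine Hjelmslev planes with parallelism `par`. -/
structure IsAHPlane {P B : Type} (I : P → B → Prop) (par : B → B → Prop) : Prop where
  join : ∀ x y, ∃ C, I x C ∧ I y C
  equiv : Equivalence par
  parallel : ∀ p C, ∃! D, I p D ∧ par C D
  near : ∀ C D, C ≠ D → NearBlocks I C D → ¬ ∃! p, I p C ∧ I p D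
  quotient : ∃ (P' B' : Type) (I' : P' → B' → Prop) (f : P → P') (g : B → B'),
    IsAffinePlane I' ∧ IsEpimorphism I I' f g ∧
      (∀ x y, f x = f y ↔ MultiJoined I x y) ∧ (∀ C D, g C = g D ↔ NearBlocks I C D)

/-- Automorphisms, as pairs of a permutation of the points and a permutation of the blocks. -/
def IsAutomorphism {P B : Type} (I : P → B → Prop) (s : Equiv.Perm P × Equiv.Perm B) : Prop :=
  ∀ x C, I x C ↔ I (s.1 x) (s.2 C)

/-- Translations: automorphisms which fix every block of some parallel class and which are the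
identity or fix no point. -/
def IsTranslation {P B : Type} (I : P → B → Prop) (par : B → B → Prop)
    (s : Equiv.Perm P × Equiv.Perm B) : Prop :=
  IsAutomorphism I s ∧ (∃ C, ∀ D, par C D → s.2 D = D) ∧ (s = 1 ∨ ∀ x, s.1 x ≠ x)

/-- points: `(ℤ/4)²` -/
abbrev Pt := Fin 4 × Fin 4
/-- blocks: `inl (m,b)` is `y = m x + b`; `inr (m,b)` is `x = 2 m y + b` -/
abbrev Bl := (Fin 4 × Fin 4) ⊕ (Fin 2 × Fin 4)

def inc (p : Pt) : Bl → Bool
  | Sum.inl c => p.2 == c.1 * p.1 + c.2
  | Sum.inr c => p.1 == (if c.1 = 1 then 2 * p.2 else 0) + c.2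

def Inc (p : Pt) (c : Bl) : Prop := inc p c = true

instance : DecidableRel Inc := fun p c => inferInstanceAs (Decidable (inc p c = true))

/-- direction of a block -/
def dir : Bl → Fin 4 ⊕ Fin 2
  | Sum.inl c => Sum.inl c.1
  | Sum.inr c => Sum.inr c.1

def par (c d : Bl) : Prop := dir c = dir d

instance : DecidableRel par := fun c d => inferInstanceAs (Decidable (dir c = dir d))

def md (a : Fin 4) : Fin 2 := if a = 0 ∨ a = 2 then 0 else 1

def f (p : Pt) : Fin 2 × Fin 2 := (md p.1, md p.2)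

def g : Bl → (Fin 2 × Fin 2) ⊕ Fin 2
  | Sum.inl c => Sum.inl (md c.1, md c.2)
  | Sum.inr c => Sum.inr (md c.2)

def inc' (p : Fin 2 × Fin 2) : (Fin 2 × Fin 2) ⊕ Fin 2 → Bool
  | Sum.inl c => p.2 == c.1 * p.1 + c.2
  | Sum.inr c => p.1 == c

def Inc' (p : Fin 2 × Fin 2) (c : (Fin 2 × Fin 2) ⊕ Fin 2) : Prop := inc' p c = true

instance : DecidableRel Inc' := fun p c => inferInstanceAs (Decidable (inc' p c = true))

lemma multi_iff : ∀ x y : Pt, f x = f y ↔ MultiJoined Inc x y := by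
  unfold MultiJoined
  decide +kernel

lemma near_aux : ∀ C D : Bl, g C = g D ↔
    ((∀ x, Inc x C → ∃ y, Inc y D ∧ f x = f y) ∧ (∀ x, Inc x D → ∃ y, Inc y C ∧ f x = f y)) := by
  decide +kernel

lemma near_iff (C D : Bl) : g C = g D ↔ NearBlocks Inc C D := by
  unfold NearBlocks
  simp only [← multi_iff]
  exact near_aux C D

lemma near_inter : ∀ C D : Bl, C ≠ D → g C = g D → ¬ ∃ p, (Inc p C ∧ Inc p D) ∧
    ∀ q, Inc q C ∧ Inc q D → q = p := by
  decide +kernel

lemma aff : IsAffinePlane Inc' where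
  join := by
    have : ∀ x y, x ≠ y → ∃ C, (Inc' x C ∧ Inc' y C) ∧ ∀ D, (Inc' x D ∧ Inc' y D) → D = C := by
      decide +kernel
    intro x y h
    obtain ⟨C, h1, h2⟩ := this x y h
    exact ⟨C, h1, h2⟩
  parallel := by
    have : ∀ x C, ¬ Inc' x C → ∃ D, (Inc' x D ∧ ∀ y, ¬ (Inc' y C ∧ Inc' y D)) ∧
        ∀ E, (Inc' x E ∧ ∀ y, ¬ (Inc' y C ∧ Inc' y E)) → E = D := by
      decide +kernel
    intro x C h
    obtain ⟨D, h1, h2⟩ := this x C h
    exact ⟨D, h1, h2⟩
  triangle := by decide +kernel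
  two := by decide +kernel

lemma ah : IsAHPlane Inc par where
  join := by decide +kernel
  equiv := ⟨fun _ => rfl, fun h => h.symm, fun h h' => h.trans h'⟩
  parallel := by
    have : ∀ p C, ∃ D, (Inc p D ∧ par C D) ∧ ∀ E, (Inc p E ∧ par C E) → E = D := by
      decide +kernel
    intro p C
    obtain ⟨D, h1, h2⟩ := this p C
    exact ⟨D, h1, h2⟩
  near := by
    intro C D hne hn hex
    rw [← near_iff] at hn
    obtain ⟨p, h1, h2⟩ := hex
    exact near_inter C D hne hn ⟨p, h1, h2⟩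
  quotient := by
    refine ⟨_, _, Inc', f, g, aff, ⟨?_, ?_, ?_, ?_⟩, multi_iff, near_iff⟩
    · have : ∀ y, ∃ x, f x = y := by decide +kernel
      exact this
    · have : ∀ y, ∃ x, g x = y := by decide +kernel
      exact this
    · decide +kernel
    · decide +kernel

/-- `(x,y) ↦ (x, y + 2x + 1)` -/
def t1 : Equiv.Perm Pt where
  toFun p := (p.1, p.2 + 2 * p.1 + 1)
  invFun p := (p.1, p.2 - 2 * p.1 - 1)
  left_inv := by decide +kernel
  right_inv := by decide +kernel

/-- induced map on blocks -/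
def t1b : Equiv.Perm Bl where
  toFun c := match c with
    | Sum.inl c => Sum.inl (c.1 + 2, c.2 + 1)
    | Sum.inr c => Sum.inr (c.1, c.2 + (if c.1 = 1 then 2 else 0))
  invFun c := match c with
    | Sum.inl c => Sum.inl (c.1 + 2, c.2 - 1)
    | Sum.inr c => Sum.inr (c.1, c.2 + (if c.1 = 1 then 2 else 0))
  left_inv := by decide +kernel
  right_inv := by decide +kernel

/-- `(x,y) ↦ (x, y + 3)` -/
def t2 : Equiv.Perm Pt where
  toFun p := (p.1, p.2 + 3)
  invFun p := (p.1, p.2 + 1)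
  left_inv := by decide +kernel
  right_inv := by decide +kernel

def t2b : Equiv.Perm Bl where
  toFun c := match c with
    | Sum.inl c => Sum.inl (c.1, c.2 + 3)
    | Sum.inr c => Sum.inr (c.1, c.2 + (if c.1 = 1 then 2 else 0))
  invFun c := match c with
    | Sum.inl c => Sum.inl (c.1, c.2 + 1)
    | Sum.inr c => Sum.inr (c.1, c.2 + (if c.1 = 1 then 2 else 0))
  left_inv := by decide +kernel
  right_inv := by decide +kernel

lemma t1_trans : IsTranslation Inc par (t1, t1b) := by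
  refine ⟨?_, ?_, Or.inr ?_⟩
  · have : ∀ x C, Inc x C ↔ Inc (t1 x) (t1b C) := by decide +kernel
    exact this
  · refine ⟨Sum.inr (0, 0), ?_⟩
    have : ∀ D, par (Sum.inr (0, 0)) D → t1b D = D := by decide +kernel
    exact this
  · have : ∀ x, t1 x ≠ x := by decide +kernel
    exact this

lemma t2_trans : IsTranslation Inc par (t2, t2b) := by
  refine ⟨?_, ?_, Or.inr ?_⟩
  · have : ∀ x C, Inc x C ↔ Inc (t2 x) (t2b C) := by decide +kernel
    exact this
  · refine ⟨Sum.inr (0, 0), ?_⟩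
    have : ∀ D, par (Sum.inr (0, 0)) D → t2b D = D := by decide +kernel
    exact this
  · have : ∀ x, t2 x ≠ x := by decide +kernel
    exact this

/-- There is a (finite) affine Hjelmslev plane whose set of translations is not a group: two
translations, both preserving parallelism, have a product that fixes a point without being the
identity. -/
theorem result :
    ∃ (P B : Type) (_ : Fintype P) (_ : Fintype B) (I : P → B → Prop) (par : B → B → Prop),
      IsAHPlane I par ∧
      (∃ s t : Equiv.Perm P × Equiv.Perm B, IsTranslation I par s ∧ IsTranslation I par t ∧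
        (∀ C D, par C D ↔ par (s.2 C) (s.2 D)) ∧ (∀ C D, par C D ↔ par (t.2 C) (t.2 D)) ∧
        ¬ IsTranslation I par (s * t) ∧ (∃ x, (s * t).1 x = x) ∧ (∃ y, (s * t).1 y ≠ y)) ∧
      ¬ ∃ T : Subgroup (Equiv.Perm P × Equiv.Perm B),
        ∀ s : Equiv.Perm P × Equiv.Perm B, s ∈ T ↔ IsTranslation I par s := by
  have h1 : ((t1, t1b) * (t2, t2b) : Equiv.Perm Pt × Equiv.Perm Bl).1 (0, 0) = (0, 0) := by
    show t1 (t2 (0, 0)) = (0, 0)
    decide +kernel
  have h2 : ((t1, t1b) * (t2, t2b) : Equiv.Perm Pt × Equiv.Perm Bl).1 (1, 0) ≠ (1, 0) := by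
    show t1 (t2 (1, 0)) ≠ (1, 0)
    decide +kernel
  have h3 : ¬ IsTranslation Inc par ((t1, t1b) * (t2, t2b)) := by
    rintro ⟨_, _, h | h⟩
    · rw [h] at h2
      exact h2 rfl
    · exact h (0, 0) h1
  have h4 : ∀ C D, par C D ↔ par (t1b C) (t1b D) := by decide +kernel
  have h5 : ∀ C D, par C D ↔ par (t2b C) (t2b D) := by decide +kernel
  refine ⟨Pt, Bl, inferInstance, inferInstance, Inc, par, ah,
    ⟨(t1, t1b), (t2, t2b), t1_trans, t2_trans, h4, h5, h3, ⟨(0, 0), h1⟩, ⟨(1, 0), h2⟩⟩, ?_⟩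
  rintro ⟨T, hT⟩
  exact h3 ((hT _).1 (T.mul_mem ((hT _).2 t1_trans) ((hT _).2 t2_trans)))

end Pool.Agent.Results.MP_43980c_co.NotGroup
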